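import Pool.Agent.MP_0d4ca0_al.Main

set_option autoImplicit false

open Pool.Agent.MP_0d4ca0_al

/-- A loop of order 128 in which (T) is universal but the AAIP fails. -/
theorem Pool.Agent.Results.MP_0d4ca0_al.Order128.result :
    ∃ (mul : Fin 128 → Fin 128 → Fin 128) (e : Fin 128), IsLoop mul e ∧
      (∀ (G : Type) (op : G → G → G) (e' : G), IsLoop op e' → IsIsotope op mul → PropT op) ∧
      ¬ AAIP mul e :=
  Pool.Agent.MP_0d4ca0_al.main
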